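import Pool.Agent.Helper81.MFD.BrD

/-!
The geometric definition agrees with the combinatorial one.
-/

set_option autoImplicit false

namespace Pool.Agent.Helper81.MFD

open Pool.Agent.Helper69.MF

theorem flatFoldable_iff (I : Inst) : I.FlatFoldable ↔ Foldable I.pat I.n I.m := by
  constructor
  · rintro ⟨f, below, h⟩
    exact foldable_of_flat h
  · exact flat_of_foldable I

theorem ofPat_flatFoldable_iff (A : Pat) (n m : ℕ) (hn : 0 < n) (hm : 0 < m) :
    (ofPat A n m hn hm).FlatFoldable ↔ Foldable A n m := by
  rw [flatFoldable_iff, pat_ofPat]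
  rfl

end Pool.Agent.Helper81.MFD
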