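import Pool.Agent.Helper81.MFD.Defs
import Pool.Agent.Helper69.MF.Core

/-!
The instance of a pattern, and the pattern of an instance.
-/

set_option autoImplicit false

namespace Pool.Agent.Helper81.MFD

open Pool.Agent.Helper69.MF

/-- The label of a crease edge whose first square has parity `(i + j) % 2` and lies below the second
one iff `d` is true. -/
def lab (i j : ℕ) (d : Bool) : MV := if d = decide ((i + j) % 2 = 0) then MV.V else MV.M

/-- The instance of a pattern. -/
def ofPat (A : Pat) (n m : ℕ) (hn : 0 < n) (hm : 0 < m) : Inst where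
  m := m
  n := n
  m_pos := hm
  n_pos := hn
  label := fun e => match e with
    | Edge.vert i j => lab i j (A.H i j)
    | Edge.horiz i j => lab i j (A.V i j)

/-- The pattern of an instance. -/
def Inst.pat (I : Inst) : Pat where
  H i j := decide (I.label (Edge.vert i j) = MV.V ↔ (i + j) % 2 = 0)
  V i j := decide (I.label (Edge.horiz i j) = MV.V ↔ (i + j) % 2 = 0)

theorem pat_ofPat (A : Pat) (n m : ℕ) (hn : 0 < n) (hm : 0 < m) :
    (ofPat A n m hn hm).pat = A := by
  obtain ⟨H, V⟩ := A
  have key : ∀ (i j : ℕ) (d : Bool), decide (lab i j d = MV.V ↔ (i + j) % 2 = 0) = d := by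
    intro i j d
    unfold lab
    by_cases h : (i + j) % 2 = 0 <;> cases d <;> simp [h]
  simp only [Inst.pat, ofPat, Pat.mk.injEq]
  exact ⟨funext fun i => funext fun j => key i j _, funext fun i => funext fun j => key i j _⟩

end Pool.Agent.Helper81.MFD
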