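import Pool.Agent.Helper81.MFD.OfPat

/-!
From a geometric folding to a layer order of the squares.
-/

set_option autoImplicit false

namespace Pool.Agent.Helper81.MFD

open Pool.Agent.Helper69.MF

@[simp] theorem pt_zero (x y : ℝ) : pt x y 0 = x := by simp [pt]

@[simp] theorem pt_one (x y : ℝ) : pt x y 1 = y := by simp [pt]

theorem pt_ext {p q : Pt} (h0 : p 0 = q 0) (h1 : p 1 = q 1) : p = q := by
  ext i
  fin_cases i
  · exact h0
  · exact h1

theorem sq_dist (p q : Pt) : dist p q ^ 2 = (p 0 - q 0) ^ 2 + (p 1 - q 1) ^ 2 := by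
  rw [EuclideanSpace.dist_eq, Real.sq_sqrt (by positivity)]
  simp [Fin.sum_univ_two, Real.dist_eq, sq_abs]

/-- A strict total order on a finite set is given by a rank function. -/
theorem exists_rank {α : Type*} (T : Finset α) (r : α → α → Prop)
    (hasymm : ∀ s ∈ T, ∀ t ∈ T, r s t → ¬ r t s)
    (htotal : ∀ s ∈ T, ∀ t ∈ T, s ≠ t → r s t ∨ r t s)
    (htrans : ∀ s ∈ T, ∀ t ∈ T, ∀ u ∈ T, r s t → r t u → r s u) :
    ∃ pos : α → ℕ, ∀ s ∈ T, ∀ t ∈ T, (pos s < pos t ↔ r s t) := by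
  classical
  refine ⟨fun s => (T.filter (fun t => r t s)).card, ?_⟩
  have hlt : ∀ s ∈ T, ∀ t ∈ T, r s t →
      (T.filter (fun u => r u s)).card < (T.filter (fun u => r u t)).card := by
    intro s hs t ht hst
    apply Finset.card_lt_card
    refine Finset.ssubset_iff_subset_ne.2 ⟨?_, ?_⟩
    · intro u hu
      rw [Finset.mem_filter] at hu ⊢
      exact ⟨hu.1, htrans u hu.1 s hs t ht hu.2 hst⟩
    · intro heq
      have : s ∈ T.filter (fun u => r u t) := Finset.mem_filter.2 ⟨hs, hst⟩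
      rw [← heq, Finset.mem_filter] at this
      exact hasymm s hs s hs this.2 this.2
  intro s hs t ht
  constructor
  · intro h
    by_contra hn
    rcases eq_or_ne s t with rfl | hne
    · exact lt_irrefl _ h
    · rcases htotal s hs t ht hne with h1 | h1
      · exact hn h1
      · exact lt_asymm h (hlt t ht s hs h1)
  · exact hlt s hs t ht

/-- The edge of a crease. -/
def edge (x : Cr) : Edge := if x.k then Edge.horiz x.c x.r else Edge.vert x.c x.r

theorem edge_a (x : Cr) : (edge x).a = x.fst := by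
  obtain ⟨k, c, r⟩ := x
  cases k <;> rfl

theorem edge_b (x : Cr) : (edge x).b = x.snd := by
  obtain ⟨k, c, r⟩ := x
  cases k <;> rfl

theorem edge_mem (I : Inst) (x : Cr) : edge x ∈ I.edges ↔ x.In (rect I.n I.m) := by
  unfold Inst.edges
  rw [Set.mem_ofPred_eq, edge_a, edge_b]
  rfl

theorem edge_inj {x y : Cr} (h : edge x = edge y) : x = y := by
  obtain ⟨k, c, r⟩ := x
  obtain ⟨k', c', r'⟩ := y
  cases k <;> cases k' <;> simp [edge] at h ⊢ <;> exact h

/-- The center of a square. -/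
noncomputable def ctr (s : Sq) : Pt := pt (s.1 + 1 / 2) (s.2 + 1 / 2)

theorem ctr_open (s : Sq) : ctr s ∈ openSquare s := by
  unfold ctr openSquare
  simp only [Set.mem_ofPred_eq, pt_zero, pt_one]
  refine ⟨?_, ?_, ?_, ?_⟩ <;> linarith

theorem open_sub (s : Sq) : openSquare s ⊆ square s := by
  intro p hp
  exact ⟨hp.1.le, hp.2.1.le, hp.2.2.1.le, hp.2.2.2.le⟩

variable {I : Inst} {f : Pt → Pt} {below : Sq → Sq → Prop}

theorem vert_mem {i j : ℕ} (hi : i + 1 < I.n) (hj : j < I.m) : Edge.vert i j ∈ I.edges :=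
  ⟨⟨Nat.lt_of_succ_lt hi, hj⟩, ⟨hi, hj⟩⟩

theorem horiz_mem {i j : ℕ} (hi : i < I.n) (hj : j + 1 < I.m) : Edge.horiz i j ∈ I.edges :=
  ⟨⟨hi, Nat.lt_of_succ_lt hj⟩, ⟨hi, hj⟩⟩

theorem f_ctr (h : IsFlatFolding I f below) : ∀ i j : ℕ, i < I.n → j < I.m →
    f (ctr (i, j)) = f (ctr (0, 0)) := by
  have h1 : ∀ i j : ℕ, i < I.n → j < I.m → f (ctr (i, j)) = f (ctr (0, j)) := by
    intro i
    induction i with
    | zero => intro j _ _; rfl
    | succ i ih =>
      intro j hi hj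
      rw [← ih j (Nat.lt_of_succ_lt hi) hj,
        ← h.reflect (Edge.vert i j) (vert_mem hi hj) (ctr (i, j)) (open_sub _ (ctr_open _))]
      congr 1
      apply pt_ext
      · simp only [ctr, Edge.refl, pt_zero]
        push_cast
        ring
      · simp only [ctr, Edge.refl, pt_one]
  have h2 : ∀ j : ℕ, j < I.m → f (ctr (0, j)) = f (ctr (0, 0)) := by
    intro j
    induction j with
    | zero => intro _; rfl
    | succ j ih =>
      intro hj
      rw [← ih (Nat.lt_of_succ_lt hj),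
        ← h.reflect (Edge.horiz 0 j) (horiz_mem I.n_pos hj) (ctr (0, j))
          (open_sub _ (ctr_open _))]
      congr 1
      apply pt_ext
      · simp only [ctr, Edge.refl, pt_zero]
      · simp only [ctr, Edge.refl, pt_one]
        push_cast
        ring
  intro i j hi hj
  rw [h1 i j hi hj, h2 j hj]

theorem overlap (h : IsFlatFolding I f below) {s t : Sq} (hs : s ∈ I.squares)
    (ht : t ∈ I.squares) : Overlap f s t :=
  ⟨ctr s, ctr_open s, ctr t, ctr_open t,
    (f_ctr h s.1 s.2 hs.1 hs.2).trans (f_ctr h t.1 t.2 ht.1 ht.2).symm⟩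

theorem overlap₃ (h : IsFlatFolding I f below) {r s t : Sq} (hr : r ∈ I.squares)
    (hs : s ∈ I.squares) (ht : t ∈ I.squares) : Overlap₃ f r s t :=
  ⟨ctr r, ctr_open r, ctr s, ctr_open s, ctr t, ctr_open t,
    (f_ctr h r.1 r.2 hr.1 hr.2).trans (f_ctr h s.1 s.2 hs.1 hs.2).symm,
    (f_ctr h s.1 s.2 hs.1 hs.2).trans (f_ctr h t.1 t.2 ht.1 ht.2).symm⟩

/-- The image of a grid point. -/
noncomputable def F (f : Pt → Pt) (i j : ℕ) : Pt := f (pt i j)

theorem corner_mem (i j a b : ℕ) (ha : a ≤ 1) (hb : b ≤ 1) :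
    pt ((i + a : ℕ) : ℝ) ((j + b : ℕ) : ℝ) ∈ square (i, j) := by
  have ha' : (a : ℝ) ≤ 1 := by exact_mod_cast ha
  have hb' : (b : ℝ) ≤ 1 := by exact_mod_cast hb
  have ha0 : (0 : ℝ) ≤ a := Nat.cast_nonneg a
  have hb0 : (0 : ℝ) ≤ b := Nat.cast_nonneg b
  unfold square
  simp only [Set.mem_ofPred_eq, pt_zero, pt_one]
  push_cast
  refine ⟨?_, ?_, ?_, ?_⟩ <;> linarith

theorem F_add_two_left (h : IsFlatFolding I f below) {i j : ℕ} (hi : i + 2 ≤ I.n)
    (hj : j ≤ I.m) : F f (i + 2) j = F f i j := by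
  have hm := I.m_pos
  obtain ⟨j', b, hb, hj', hjb⟩ : ∃ j' b : ℕ, b ≤ 1 ∧ j' < I.m ∧ j = j' + b := by
    rcases Nat.lt_or_ge j I.m with h1 | h1
    · exact ⟨j, 0, by omega, h1, rfl⟩
    · exact ⟨I.m - 1, 1, le_refl _, by omega, by omega⟩
  have h1 := h.reflect (Edge.vert i j') (vert_mem (by omega) hj') (pt (i : ℝ) (j : ℝ)) (by
    have := corner_mem i j' 0 b (by omega) hb
    rw [← hjb] at this
    simpa [Edge.a] using this)
  unfold F
  rw [← h1]
  congr 1
  apply pt_ext
  · simp only [Edge.refl, pt_zero]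
    push_cast
    ring
  · simp only [Edge.refl, pt_one]

theorem F_add_two_right (h : IsFlatFolding I f below) {i j : ℕ} (hi : i ≤ I.n)
    (hj : j + 2 ≤ I.m) : F f i (j + 2) = F f i j := by
  have hn := I.n_pos
  obtain ⟨i', a, ha, hi', hia⟩ : ∃ i' a : ℕ, a ≤ 1 ∧ i' < I.n ∧ i = i' + a := by
    rcases Nat.lt_or_ge i I.n with h1 | h1
    · exact ⟨i, 0, by omega, h1, rfl⟩
    · exact ⟨I.n - 1, 1, le_refl _, by omega, by omega⟩
  have h1 := h.reflect (Edge.horiz i' j) (horiz_mem hi' (by omega)) (pt (i : ℝ) (j : ℝ)) (by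
    have := corner_mem i' j a 0 ha (by omega)
    rw [← hia] at this
    simpa [Edge.a] using this)
  unfold F
  rw [← h1]
  congr 1
  apply pt_ext
  · simp only [Edge.refl, pt_zero]
  · simp only [Edge.refl, pt_one]
    push_cast
    ring

theorem F_mod_left (h : IsFlatFolding I f below) : ∀ (i j : ℕ), i ≤ I.n → j ≤ I.m →
    F f i j = F f (i % 2) j := by
  intro i
  induction i using Nat.strong_induction_on with
  | _ i ih =>
    intro j hi hj
    rcases Nat.lt_or_ge i 2 with h2 | h2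
    · rw [Nat.mod_eq_of_lt h2]
    · obtain ⟨k, rfl⟩ : ∃ k, i = k + 2 := ⟨i - 2, by omega⟩
      rw [F_add_two_left h hi hj, ih k (by omega) j (by omega) hj, Nat.add_mod_right]

theorem F_mod_right (h : IsFlatFolding I f below) : ∀ (j i : ℕ), i ≤ I.n → j ≤ I.m →
    F f i j = F f i (j % 2) := by
  intro j
  induction j using Nat.strong_induction_on with
  | _ j ih =>
    intro i hi hj
    rcases Nat.lt_or_ge j 2 with h2 | h2
    · rw [Nat.mod_eq_of_lt h2]
    · obtain ⟨k, rfl⟩ : ∃ k, j = k + 2 := ⟨j - 2, by omega⟩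
      rw [F_add_two_right h hi hj, ih k (by omega) i hi (by omega), Nat.add_mod_right]

theorem F_congr (h : IsFlatFolding I f below) {i j i' j' : ℕ} (hi : i ≤ I.n) (hj : j ≤ I.m)
    (hi' : i' ≤ I.n) (hj' : j' ≤ I.m) (h1 : i % 2 = i' % 2) (h2 : j % 2 = j' % 2) :
    F f i j = F f i' j' := by
  rw [F_mod_left h i j hi hj, F_mod_left h i' j' hi' hj', h1,
    F_mod_right h j (i' % 2) (le_trans (Nat.mod_le _ _) hi') hj,
    F_mod_right h j' (i' % 2) (le_trans (Nat.mod_le _ _) hi') hj', h2]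

end Pool.Agent.Helper81.MFD
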