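import Pool.Agent.Helper81.MFD.BrA

/-!
Orientation of the squares, and the layer order of a geometric folding.
-/

set_option autoImplicit false

namespace Pool.Agent.Helper81.MFD

open Pool.Agent.Helper69.MF

variable {I : Inst} {f : Pt → Pt} {below : Sq → Sq → Prop}

/-- The determinant of a square. -/
noncomputable def crs (f : Pt → Pt) (i j : ℕ) : ℝ :=
  (F f (i + 1) j 0 - F f i j 0) * (F f i (j + 1) 1 - F f i j 1)
    - (F f (i + 1) j 1 - F f i j 1) * (F f i (j + 1) 0 - F f i j 0)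

theorem frontUp_iff (s : Sq) : FrontUp f s ↔ 0 < crs f s.1 s.2 := by
  unfold FrontUp crs F
  push_cast
  rfl

theorem F_dist (h : IsFlatFolding I f below) {i j : ℕ} (hi : i < I.n) (hj : j < I.m)
    (a b a' b' : ℕ) (ha : a ≤ 1) (hb : b ≤ 1) (ha' : a' ≤ 1) (hb' : b' ≤ 1) :
    (F f (i + a) (j + b) 0 - F f (i + a') (j + b') 0) ^ 2 +
      (F f (i + a) (j + b) 1 - F f (i + a') (j + b') 1) ^ 2 =
      ((a : ℝ) - a') ^ 2 + ((b : ℝ) - b') ^ 2 := by
  have h1 := h.isom (i, j) ⟨hi, hj⟩ _ (corner_mem i j a b ha hb) _ (corner_mem i j a' b' ha' hb')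
  have h2 : dist (F f (i + a) (j + b)) (F f (i + a') (j + b')) ^ 2 =
      dist (pt ((i + a : ℕ) : ℝ) ((j + b : ℕ) : ℝ)) (pt ((i + a' : ℕ) : ℝ) ((j + b' : ℕ) : ℝ)) ^ 2 := by
    rw [← h1]
    rfl
  rw [sq_dist, sq_dist] at h2
  rw [h2]
  simp only [pt_zero, pt_one]
  push_cast
  ring

/-- The corners of a unit square which is mapped isometrically. -/
theorem corners (a0 a1 b0 b1 c0 c1 d0 d1 : ℝ)
    (hab : (a0 - b0) ^ 2 + (a1 - b1) ^ 2 = 1) (hac : (a0 - c0) ^ 2 + (a1 - c1) ^ 2 = 1)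
    (hbc : (b0 - c0) ^ 2 + (b1 - c1) ^ 2 = 2) (hbd : (b0 - d0) ^ 2 + (b1 - d1) ^ 2 = 1)
    (hcd : (c0 - d0) ^ 2 + (c1 - d1) ^ 2 = 1) (had : (a0 - d0) ^ 2 + (a1 - d1) ^ 2 = 2) :
    d0 = b0 + c0 - a0 ∧ d1 = b1 + c1 - a1 ∧
      ((b0 - a0) * (c1 - a1) - (b1 - a1) * (c0 - a0)) ^ 2 = 1 := by
  have h1 : (d0 - b0 - c0 + a0) ^ 2 + (d1 - b1 - c1 + a1) ^ 2 = 0 := by
    linear_combination hab + hac - hbc + hbd + hcd - had
  have h2 : d0 - b0 - c0 + a0 = 0 := by
    have : (d0 - b0 - c0 + a0) ^ 2 = 0 :=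
      le_antisymm (by linarith [sq_nonneg (d1 - b1 - c1 + a1)]) (sq_nonneg _)
    exact pow_eq_zero_iff (two_ne_zero) |>.1 this
  have h3 : d1 - b1 - c1 + a1 = 0 := by
    have : (d1 - b1 - c1 + a1) ^ 2 = 0 :=
      le_antisymm (by linarith [sq_nonneg (d0 - b0 - c0 + a0)]) (sq_nonneg _)
    exact pow_eq_zero_iff (two_ne_zero) |>.1 this
  refine ⟨by linarith, by linarith, ?_⟩
  have h4 : (b0 - a0) * (c0 - a0) + (b1 - a1) * (c1 - a1) = 0 := by
    linear_combination (hab + hac - hbc) / 2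
  have h5 : ((b0 - a0) * (c1 - a1) - (b1 - a1) * (c0 - a0)) ^ 2 =
      ((a0 - b0) ^ 2 + (a1 - b1) ^ 2) * ((a0 - c0) ^ 2 + (a1 - c1) ^ 2) -
        ((b0 - a0) * (c0 - a0) + (b1 - a1) * (c1 - a1)) ^ 2 := by ring
  rw [h5, hab, hac, h4]
  norm_num

theorem sq_corners (h : IsFlatFolding I f below) {i j : ℕ} (hi : i < I.n) (hj : j < I.m) :
    F f (i + 1) (j + 1) 0 = F f (i + 1) j 0 + F f i (j + 1) 0 - F f i j 0 ∧
      F f (i + 1) (j + 1) 1 = F f (i + 1) j 1 + F f i (j + 1) 1 - F f i j 1 ∧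
      crs f i j ^ 2 = 1 := by
  have e := F_dist h hi hj
  have hab := e 0 0 1 0 (by omega) (by omega) (by omega) (by omega)
  have hac := e 0 0 0 1 (by omega) (by omega) (by omega) (by omega)
  have hbc := e 1 0 0 1 (by omega) (by omega) (by omega) (by omega)
  have hbd := e 1 0 1 1 (by omega) (by omega) (by omega) (by omega)
  have hcd := e 0 1 1 1 (by omega) (by omega) (by omega) (by omega)
  have had := e 0 0 1 1 (by omega) (by omega) (by omega) (by omega)
  simp only [add_zero, Nat.cast_zero, Nat.cast_one] at hab hac hbc hbd hcd had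
  exact corners _ _ _ _ _ _ _ _ (by rw [hab]; norm_num) (by rw [hac]; norm_num)
    (by rw [hbc]; norm_num) (by rw [hbd]; norm_num) (by rw [hcd]; norm_num)
    (by rw [had]; norm_num)

theorem crs_left (h : IsFlatFolding I f below) {i j : ℕ} (hi : i + 1 < I.n) (hj : j < I.m) :
    crs f (i + 1) j = - crs f i j := by
  obtain ⟨h0, h1, -⟩ := sq_corners h (Nat.lt_of_succ_lt hi) hj
  unfold crs
  rw [show i + 1 + 1 = i + 2 from rfl, F_add_two_left h hi hj.le, h0, h1]
  ring

theorem crs_right (h : IsFlatFolding I f below) {i j : ℕ} (hi : i < I.n) (hj : j + 1 < I.m) :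
    crs f i (j + 1) = - crs f i j := by
  obtain ⟨h0, h1, -⟩ := sq_corners h hi (Nat.lt_of_succ_lt hj)
  unfold crs
  rw [show j + 1 + 1 = j + 2 from rfl, F_add_two_right h hi.le hj, h0, h1]
  ring

theorem crs_eq (h : IsFlatFolding I f below) : ∀ i j : ℕ, i < I.n → j < I.m →
    crs f i j = (-1) ^ (i + j) * crs f 0 0 := by
  have h1 : ∀ i j : ℕ, i < I.n → j < I.m → crs f i j = (-1) ^ i * crs f 0 j := by
    intro i
    induction i with
    | zero => intro j _ _; simp
    | succ i ih =>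
      intro j hi hj
      rw [crs_left h hi hj, ih j (Nat.lt_of_succ_lt hi) hj, pow_succ]
      ring
  have h2 : ∀ j : ℕ, j < I.m → crs f 0 j = (-1) ^ j * crs f 0 0 := by
    intro j
    induction j with
    | zero => intro _; simp
    | succ j ih =>
      intro hj
      rw [crs_right h I.n_pos hj, ih (Nat.lt_of_succ_lt hj), pow_succ]
      ring
  intro i j hi hj
  rw [h1 i j hi hj, h2 j hj, pow_add]
  ring

theorem frontUp_parity (h : IsFlatFolding I f below) {i j : ℕ} (hi : i < I.n) (hj : j < I.m) :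
    FrontUp f (i, j) ↔ (FrontUp f (0, 0) ↔ (i + j) % 2 = 0) := by
  rw [frontUp_iff, frontUp_iff]
  simp only
  rw [crs_eq h i j hi hj]
  have hsq := (sq_corners h I.n_pos I.m_pos).2.2
  have hne : crs f 0 0 ≠ 0 := by
    intro h0
    rw [h0] at hsq
    norm_num at hsq
  rcases Nat.mod_two_eq_zero_or_one (i + j) with hp | hp
  · rw [Even.neg_one_pow (Nat.even_iff.2 hp)]
    simp [hp]
  · rw [Odd.neg_one_pow (Nat.odd_iff.2 hp)]
    simp only [hp, one_ne_zero, iff_false, not_lt]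
    constructor
    · intro h1
      linarith
    · intro h1
      rcases lt_or_eq_of_le h1 with h2 | h2
      · linarith
      · exact absurd h2 hne

/-- The layer order, seen from the side of the front of the square `(0, 0)`. -/
def ord (f : Pt → Pt) (below : Sq → Sq → Prop) (s t : Sq) : Prop :=
  (FrontUp f (0, 0) ∧ below s t) ∨ (¬ FrontUp f (0, 0) ∧ below t s)

theorem ord_edge (h : IsFlatFolding I f below) (e : Edge) (he : e ∈ I.edges) (i j : ℕ)
    (ha : e.a = (i, j)) (hb : e.b = (i + 1, j) ∨ e.b = (i, j + 1)) :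
    if (I.label e = MV.V ↔ (i + j) % 2 = 0) then ord f below e.a e.b else ord f below e.b e.a := by
  have hA : FrontUp f e.a ↔ (FrontUp f (0, 0) ↔ (i + j) % 2 = 0) := by
    have := he.1
    rw [ha] at this ⊢
    exact frontUp_parity h this.1 this.2
  have hB : FrontUp f e.b ↔ (FrontUp f (0, 0) ↔ ¬ (i + j) % 2 = 0) := by
    have := he.2
    rcases hb with hb | hb
    · rw [hb] at this ⊢
      rw [frontUp_parity h this.1 this.2, show i + 1 + j = (i + j) + 1 by ring]
      have : ((i + j + 1) % 2 = 0) ↔ ¬ (i + j) % 2 = 0 := by omega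
      rw [this]
    · rw [hb] at this ⊢
      rw [frontUp_parity h this.1 this.2, show i + (j + 1) = (i + j) + 1 by ring]
      have : ((i + j + 1) % 2 = 0) ↔ ¬ (i + j) % 2 = 0 := by omega
      rw [this]
  unfold ord
  cases hl : I.label e with
  | V =>
    obtain ⟨h1, h2⟩ := h.valley e he hl
    by_cases hp : (i + j) % 2 = 0 <;> by_cases hF : FrontUp f (0, 0) <;>
      simp [hp, hF] at hA hB ⊢
    · exact h1 hA
    · exact h2 hB
    · exact h2 hB
    · exact h1 hA
  | M =>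
    obtain ⟨h1, h2⟩ := h.mountain e he hl
    by_cases hp : (i + j) % 2 = 0 <;> by_cases hF : FrontUp f (0, 0) <;>
      simp [hp, hF] at hA hB ⊢
    · exact h1 hA
    · exact h2 hB
    · exact h2 hB
    · exact h1 hA

end Pool.Agent.Helper81.MFD
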