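import Pool.Agent.Helper81.MFD.BrB

/-!
A flat folding gives a combinatorial folding.
-/

set_option autoImplicit false

namespace Pool.Agent.Helper81.MFD

open Pool.Agent.Helper69.MF

variable {I : Inst} {f : Pt → Pt} {below : Sq → Sq → Prop}

theorem ord_total (h : IsFlatFolding I f below) {s t : Sq} (hs : s ∈ I.squares)
    (ht : t ∈ I.squares) (hne : s ≠ t) : ord f below s t ∨ ord f below t s := by
  unfold ord
  by_cases hF : FrontUp f (0, 0)
  · rcases h.total s hs t ht hne (overlap h hs ht) with h1 | h1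
    · exact Or.inl (Or.inl ⟨hF, h1⟩)
    · exact Or.inr (Or.inl ⟨hF, h1⟩)
  · rcases h.total s hs t ht hne (overlap h hs ht) with h1 | h1
    · exact Or.inr (Or.inr ⟨hF, h1⟩)
    · exact Or.inl (Or.inr ⟨hF, h1⟩)

theorem ord_asymm (h : IsFlatFolding I f below) {s t : Sq} (hs : s ∈ I.squares)
    (ht : t ∈ I.squares) (h1 : ord f below s t) : ¬ ord f below t s := by
  unfold ord at h1 ⊢
  rintro (⟨hF, h2⟩ | ⟨hF, h2⟩)
  · rcases h1 with ⟨-, h1⟩ | ⟨hF', -⟩
    · exact h.asymm s hs t ht (overlap h hs ht) h1 h2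
    · exact hF' hF
  · rcases h1 with ⟨hF', -⟩ | ⟨-, h1⟩
    · exact hF hF'
    · exact h.asymm s hs t ht (overlap h hs ht) h2 h1

theorem ord_trans (h : IsFlatFolding I f below) {r s t : Sq} (hr : r ∈ I.squares)
    (hs : s ∈ I.squares) (ht : t ∈ I.squares) (h1 : ord f below r s) (h2 : ord f below s t) :
    ord f below r t := by
  unfold ord at h1 h2 ⊢
  rcases h1 with ⟨hF, h1⟩ | ⟨hF, h1⟩
  · rcases h2 with ⟨-, h2⟩ | ⟨hF', -⟩
    · exact Or.inl ⟨hF, h.trans r hr s hs t ht (overlap₃ h hr hs ht) h1 h2⟩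
    · exact absurd hF hF'
  · rcases h2 with ⟨hF', -⟩ | ⟨-, h2⟩
    · exact absurd hF' hF
    · exact Or.inr ⟨hF, h.trans t ht s hs r hr (overlap₃ h ht hs hr) h2 h1⟩

/-- The end points of a crease edge. -/
theorem seg_vert (i j b : ℕ) (hb : b ≤ 1) :
    pt ((i + 1 : ℕ) : ℝ) ((j + b : ℕ) : ℝ) ∈ (Edge.vert i j).seg := by
  refine ⟨?_, ?_⟩
  · exact corner_mem i j 1 b (le_refl _) hb
  · have := corner_mem (i + 1) j 0 b (by omega) hb
    simpa [Edge.b] using this

theorem seg_horiz (i j a : ℕ) (ha : a ≤ 1) :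
    pt ((i + a : ℕ) : ℝ) ((j + 1 : ℕ) : ℝ) ∈ (Edge.horiz i j).seg := by
  refine ⟨?_, ?_⟩
  · exact corner_mem i j a 1 ha (le_refl _)
  · have := corner_mem i (j + 1) a 0 ha (by omega)
    simpa [Edge.b] using this

theorem meet (h : IsFlatFolding I f below) {x y : Cr} (hx : x.In (rect I.n I.m))
    (hy : y.In (rect I.n I.m)) (hp : x.page = y.page) : Meet f (edge x) (edge y) := by
  refine ⟨?_, overlap h ((edge_mem I x).2 hx).1 ((edge_mem I y).2 hy).1⟩
  obtain ⟨k, i, j⟩ := x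
  obtain ⟨k', i', j'⟩ := y
  simp only [Cr.page, Prod.mk.injEq] at hp
  obtain ⟨rfl, hp⟩ := hp
  cases k
  · simp only [Bool.false_eq_true, if_false] at hp
    obtain ⟨⟨-, hx1⟩, ⟨hx2, -⟩⟩ := hx
    obtain ⟨⟨-, hy1⟩, ⟨hy2, -⟩⟩ := hy
    simp only [Cr.fst, Cr.snd, Bool.false_eq_true, if_false] at hx1 hx2 hy1 hy2
    have key : ∀ b b' : ℕ, b ≤ 1 → b' ≤ 1 → (j + b) % 2 = (j' + b') % 2 →
        f (pt ((i + 1 : ℕ) : ℝ) ((j + b : ℕ) : ℝ)) = f (pt ((i' + 1 : ℕ) : ℝ) ((j' + b' : ℕ) : ℝ)) := by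
      intro b b' hb hb' hbb
      exact F_congr h (by omega) (by omega) (by omega) (by omega) (by omega) hbb
    rcases Nat.mod_two_eq_zero_or_one (j + j') with hj | hj
    · refine ⟨_, seg_vert i j 0 (by omega), _, seg_vert i j 1 (le_refl _),
        _, seg_vert i' j' 0 (by omega), _, seg_vert i' j' 1 (le_refl _), ?_,
        key 0 0 (by omega) (by omega) (by omega), key 1 1 (by omega) (by omega) (by omega)⟩
      intro he
      have := congrArg (fun p : Pt => p 1) he
      simp at this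
    · refine ⟨_, seg_vert i j 0 (by omega), _, seg_vert i j 1 (le_refl _),
        _, seg_vert i' j' 1 (le_refl _), _, seg_vert i' j' 0 (by omega), ?_,
        key 0 1 (by omega) (by omega) (by omega), key 1 0 (by omega) (by omega) (by omega)⟩
      intro he
      have := congrArg (fun p : Pt => p 1) he
      simp at this
  · simp only [if_true] at hp
    obtain ⟨⟨hx1, -⟩, ⟨-, hx2⟩⟩ := hx
    obtain ⟨⟨hy1, -⟩, ⟨-, hy2⟩⟩ := hy
    simp only [Cr.fst, Cr.snd, if_true] at hx1 hx2 hy1 hy2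
    have key : ∀ b b' : ℕ, b ≤ 1 → b' ≤ 1 → (i + b) % 2 = (i' + b') % 2 →
        f (pt ((i + b : ℕ) : ℝ) ((j + 1 : ℕ) : ℝ)) = f (pt ((i' + b' : ℕ) : ℝ) ((j' + 1 : ℕ) : ℝ)) := by
      intro b b' hb hb' hbb
      exact F_congr h (by omega) (by omega) (by omega) (by omega) hbb (by omega)
    rcases Nat.mod_two_eq_zero_or_one (i + i') with hi | hi
    · refine ⟨_, seg_horiz i j 0 (by omega), _, seg_horiz i j 1 (le_refl _),
        _, seg_horiz i' j' 0 (by omega), _, seg_horiz i' j' 1 (le_refl _), ?_,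
        key 0 0 (by omega) (by omega) (by omega), key 1 1 (by omega) (by omega) (by omega)⟩
      intro he
      have := congrArg (fun p : Pt => p 0) he
      simp at this
    · refine ⟨_, seg_horiz i j 0 (by omega), _, seg_horiz i j 1 (le_refl _),
        _, seg_horiz i' j' 1 (le_refl _), _, seg_horiz i' j' 0 (by omega), ?_,
        key 0 1 (by omega) (by omega) (by omega), key 1 0 (by omega) (by omega) (by omega)⟩
      intro he
      have := congrArg (fun p : Pt => p 0) he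
      simp at this

theorem ord_dir (h : IsFlatFolding I f below) (x : Cr) (hx : x.In (rect I.n I.m)) :
    ord f below (I.pat.lo x) (I.pat.hi x) := by
  have he := (edge_mem I x).2 hx
  obtain ⟨k, i, j⟩ := x
  cases k
  · have := ord_edge h (Edge.vert i j) he i j rfl (Or.inl rfl)
    unfold Pat.lo Pat.hi Pat.dir Inst.pat
    simp only [Bool.false_eq_true, if_false, Cr.fst, Cr.snd, decide_eq_true_eq]
    by_cases hc : (I.label (Edge.vert i j) = MV.V ↔ (i + j) % 2 = 0)
    · rw [if_pos hc] at this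
      rw [if_pos hc, if_pos hc]
      exact this
    · rw [if_neg hc] at this
      rw [if_neg hc, if_neg hc]
      exact this
  · have := ord_edge h (Edge.horiz i j) he i j rfl (Or.inr rfl)
    unfold Pat.lo Pat.hi Pat.dir Inst.pat
    simp only [if_true, Cr.fst, Cr.snd, decide_eq_true_eq]
    by_cases hc : (I.label (Edge.horiz i j) = MV.V ↔ (i + j) % 2 = 0)
    · rw [if_pos hc] at this
      rw [if_pos hc, if_pos hc]
      exact this
    · rw [if_neg hc] at this
      rw [if_neg hc, if_neg hc]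
      exact this

theorem lohi (A : Pat) (x : Cr) : (A.lo x = (edge x).a ∧ A.hi x = (edge x).b) ∨
    (A.lo x = (edge x).b ∧ A.hi x = (edge x).a) := by
  rw [edge_a, edge_b]
  unfold Pat.lo Pat.hi
  cases A.dir x
  · exact Or.inr ⟨rfl, rfl⟩
  · exact Or.inl ⟨rfl, rfl⟩

theorem foldable_of_flat (h : IsFlatFolding I f below) : Foldable I.pat I.n I.m := by
  classical
  have hT : ∀ s : Sq, s ∈ Finset.range I.n ×ˢ Finset.range I.m ↔ s ∈ I.squares := by
    intro s
    rw [Finset.mem_product, Finset.mem_range, Finset.mem_range]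
    rfl
  obtain ⟨pos, hpos⟩ := exists_rank (Finset.range I.n ×ˢ Finset.range I.m) (ord f below)
    (fun s hs t ht => ord_asymm h ((hT s).1 hs) ((hT t).1 ht))
    (fun s hs t ht => ord_total h ((hT s).1 hs) ((hT t).1 ht))
    (fun s hs t ht u hu => ord_trans h ((hT s).1 hs) ((hT t).1 ht) ((hT u).1 hu))
  have hpos' : ∀ s ∈ I.squares, ∀ t ∈ I.squares, (pos s < pos t ↔ ord f below s t) :=
    fun s hs t ht => hpos s ((hT s).2 hs) t ((hT t).2 ht)
  have hlo : ∀ x : Cr, x.In (rect I.n I.m) → I.pat.lo x ∈ I.squares ∧ I.pat.hi x ∈ I.squares := by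
    intro x hx
    unfold Pat.lo Pat.hi
    cases I.pat.dir x
    · exact ⟨hx.2, hx.1⟩
    · exact ⟨hx.1, hx.2⟩
  refine ⟨pos, ?_, ?_, ?_⟩
  · intro a ha b hb hab
    by_contra hne
    rcases ord_total h ha hb hne with h1 | h1
    · exact absurd ((hpos' a ha b hb).2 h1) (by omega)
    · exact absurd ((hpos' b hb a ha).2 h1) (by omega)
  · intro x hx
    exact (hpos' _ (hlo x hx).1 _ (hlo x hx).2).2 (ord_dir h x hx)
  · intro x y hx hy hp hcross
    obtain ⟨h1, h2, h3⟩ := hcross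
    rw [hpos' _ (hlo x hx).1 _ (hlo y hy).1] at h1
    rw [hpos' _ (hlo y hy).1 _ (hlo x hx).2] at h2
    rw [hpos' _ (hlo x hx).2 _ (hlo y hy).2] at h3
    have hne : x ≠ y := by
      rintro rfl
      exact ord_asymm h (hlo x hx).1 (hlo x hx).1 h1 h1
    have hne' : edge x ≠ edge y := fun he => hne (edge_inj he)
    have ex := (edge_mem I x).2 hx
    have ey := (edge_mem I y).2 hy
    unfold ord at h1 h2 h3
    by_cases hF : FrontUp f (0, 0)
    · simp only [hF, true_and, not_true_eq_false, false_and, or_false] at h1 h2 h3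
      exact h.taco _ ex _ ey hne' (meet h hx hy hp) _ _ _ _ (lohi I.pat x) (lohi I.pat y)
        ⟨h1, h2, h3⟩
    · simp only [hF, false_and, false_or, not_false_eq_true, true_and] at h1 h2 h3
      refine h.taco _ ey _ ex (Ne.symm hne') (meet h hy hx hp.symm) (I.pat.hi y) (I.pat.lo y)
        (I.pat.hi x) (I.pat.lo x) ?_ ?_ ⟨h3, h2, h1⟩
      · rcases lohi I.pat y with ⟨ha, hb⟩ | ⟨ha, hb⟩
        · exact Or.inr ⟨hb, ha⟩
        · exact Or.inl ⟨hb, ha⟩
      · rcases lohi I.pat x with ⟨ha, hb⟩ | ⟨ha, hb⟩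
        · exact Or.inr ⟨hb, ha⟩
        · exact Or.inl ⟨hb, ha⟩

end Pool.Agent.Helper81.MFD
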