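import Pool.Agent.Helper81.MFD.BrC

/-!
A combinatorial folding gives a flat folding.
-/

set_option autoImplicit false

namespace Pool.Agent.Helper81.MFD

open Pool.Agent.Helper69.MF

/-- The folding of the line at all integers. -/
noncomputable def tri (x : ℝ) : ℝ := if Even ⌊x⌋ then Int.fract x else 1 - Int.fract x

theorem tri_eq (i : ℕ) (x : ℝ) (h1 : (i : ℝ) ≤ x) (h2 : x ≤ i + 1) :
    tri x = if i % 2 = 0 then x - i else i + 1 - x := by
  unfold tri
  rcases lt_or_eq_of_le h2 with h3 | h3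
  · have hf : ⌊x⌋ = (i : ℤ) := by
      rw [Int.floor_eq_iff]
      exact ⟨by exact_mod_cast h1, by exact_mod_cast h3⟩
    have hfr : Int.fract x = x - i := by
      rw [Int.fract, hf]
      push_cast
      ring
    rw [hf, hfr]
    rcases Nat.mod_two_eq_zero_or_one i with hi | hi
    · rw [if_pos hi, if_pos (by exact_mod_cast Nat.even_iff.2 hi)]
    · have he : ¬ Even ((i : ℕ) : ℤ) := by
        intro he
        have : Even i := by exact_mod_cast he
        rw [Nat.even_iff] at this
        omega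
      rw [if_neg he, if_neg (show ¬ i % 2 = 0 by omega)]
      ring
  · have hx : x = ((i + 1 : ℕ) : ℤ) := by
      rw [h3]
      push_cast
      ring
    have hf : ⌊x⌋ = ((i + 1 : ℕ) : ℤ) := by
      rw [hx, Int.floor_intCast]
    have hfr : Int.fract x = 0 := by
      rw [hx, Int.fract_intCast]
    rw [hf, hfr]
    rcases Nat.mod_two_eq_zero_or_one i with hi | hi
    · have he : ¬ Even (((i + 1 : ℕ) : ℕ) : ℤ) := by
        intro he
        have : Even (i + 1) := by exact_mod_cast he
        rw [Nat.even_iff] at this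
        omega
      rw [if_pos hi, if_neg he, h3]
      ring
    · have he : Even (((i + 1 : ℕ) : ℕ) : ℤ) := by
        have : Even (i + 1) := Nat.even_iff.2 (by omega)
        exact_mod_cast this
      rw [if_pos he, if_neg (show ¬ i % 2 = 0 by omega), h3]
      ring

theorem tri_left (i : ℕ) : tri (i : ℝ) = if i % 2 = 0 then 0 else 1 := by
  rw [tri_eq i i (le_refl _) (by linarith)]
  split_ifs <;> ring

theorem tri_right (i : ℕ) : tri ((i : ℝ) + 1) = if i % 2 = 0 then 1 else 0 := by
  rw [tri_eq i (i + 1) (by linarith) (le_refl _)]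
  split_ifs <;> ring

theorem tri_open (i : ℕ) (x : ℝ) (h1 : (i : ℝ) < x) (h2 : x < i + 1) : 0 < tri x ∧ tri x < 1 := by
  rw [tri_eq i x h1.le h2.le]
  split_ifs <;> constructor <;> linarith

theorem tri_sq (i : ℕ) (x y : ℝ) (hx1 : (i : ℝ) ≤ x) (hx2 : x ≤ i + 1) (hy1 : (i : ℝ) ≤ y)
    (hy2 : y ≤ i + 1) : (tri x - tri y) ^ 2 = (x - y) ^ 2 := by
  rw [tri_eq i x hx1 hx2, tri_eq i y hy1 hy2]
  split_ifs <;> ring

theorem tri_refl (i : ℕ) (x : ℝ) (h1 : (i : ℝ) ≤ x) (h2 : x ≤ i + 1) :
    tri (2 * (i + 1) - x) = tri x := by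
  rw [tri_eq i x h1 h2, tri_eq (i + 1) (2 * (i + 1) - x) (by push_cast; linarith)
    (by push_cast; linarith)]
  rcases Nat.mod_two_eq_zero_or_one i with hi | hi
  · rw [if_pos hi, if_neg (show ¬ (i + 1) % 2 = 0 by omega)]
    push_cast
    ring
  · rw [if_pos (show (i + 1) % 2 = 0 by omega), if_neg (show ¬ i % 2 = 0 by omega)]
    push_cast
    ring

/-- The folding map. -/
noncomputable def ff (p : Pt) : Pt := pt (tri (p 0)) (tri (p 1))

theorem ff_isom (s : Sq) (p q : Pt) (hp : p ∈ square s) (hq : q ∈ square s) :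
    dist (ff p) (ff q) = dist p q := by
  have h : dist (ff p) (ff q) ^ 2 = dist p q ^ 2 := by
    rw [sq_dist, sq_dist]
    simp only [ff, pt_zero, pt_one]
    rw [tri_sq s.1 (p 0) (q 0) hp.1 hp.2.1 hq.1 hq.2.1,
      tri_sq s.2 (p 1) (q 1) hp.2.2.1 hp.2.2.2 hq.2.2.1 hq.2.2.2]
  exact (pow_left_inj₀ dist_nonneg dist_nonneg two_ne_zero).1 h

theorem ff_refl (e : Edge) (p : Pt) (hp : p ∈ square e.a) : ff (e.refl p) = ff p := by
  cases e with
  | vert i j =>
    unfold ff
    simp only [Edge.refl, pt_zero, pt_one]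
    rw [tri_refl i (p 0) hp.1 hp.2.1]
  | horiz i j =>
    unfold ff
    simp only [Edge.refl, pt_zero, pt_one]
    rw [tri_refl j (p 1) hp.2.2.1 hp.2.2.2]

theorem ff_front (s : Sq) : FrontUp ff s ↔ (s.1 + s.2) % 2 = 0 := by
  unfold FrontUp ff
  simp only [pt_zero, pt_one]
  rw [tri_left, tri_right, tri_left, tri_right]
  rcases Nat.mod_two_eq_zero_or_one s.1 with h1 | h1 <;>
    rcases Nat.mod_two_eq_zero_or_one s.2 with h2 | h2
  · simp only [h1, h2, if_true]
    norm_num
    omega
  · simp only [h1, h2, if_true, one_ne_zero, if_false]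
    norm_num
    omega
  · simp only [h1, h2, if_true, one_ne_zero, if_false]
    norm_num
    omega
  · simp only [h1, h2, one_ne_zero, if_false]
    norm_num
    omega

theorem seg_vert_coord {i j : ℕ} {p : Pt} (hp : p ∈ (Edge.vert i j).seg) : p 0 = i + 1 := by
  obtain ⟨h1, h2⟩ := hp
  have := h1.2.1
  have h3 := h2.1
  simp only [Edge.a, Edge.b] at this h3
  push_cast at h3
  linarith

theorem seg_horiz_coord {i j : ℕ} {p : Pt} (hp : p ∈ (Edge.horiz i j).seg) : p 1 = j + 1 := by
  obtain ⟨h1, h2⟩ := hp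
  have := h1.2.2.2
  have h3 := h2.2.2.1
  simp only [Edge.a, Edge.b] at this h3
  push_cast at h3
  linarith

/-- No crease edge is mapped into the interior. -/
theorem no_tortilla (e : Edge) (c : Sq) (p : Pt) (hp : p ∈ e.seg) (q : Pt)
    (hq : q ∈ openSquare c) : ff p ≠ ff q := by
  intro h
  cases e with
  | vert i j =>
    have h0 : tri (p 0) = tri (q 0) := by
      have := congrArg (fun x : Pt => x 0) h
      simpa [ff] using this
    rw [seg_vert_coord hp, tri_right] at h0
    obtain ⟨h1, h2⟩ := tri_open c.1 (q 0) hq.1 hq.2.1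
    rw [← h0] at h1 h2
    split_ifs at h1 h2 <;> linarith
  | horiz i j =>
    have h0 : tri (p 1) = tri (q 1) := by
      have := congrArg (fun x : Pt => x 1) h
      simpa [ff] using this
    rw [seg_horiz_coord hp, tri_right] at h0
    obtain ⟨h1, h2⟩ := tri_open c.2 (q 1) hq.2.2.1 hq.2.2.2
    rw [← h0] at h1 h2
    split_ifs at h1 h2 <;> linarith

theorem meet_page {e e' : Edge} (h : Meet ff e e') :
    (∃ i j i' j' : ℕ, e = Edge.vert i j ∧ e' = Edge.vert i' j' ∧ i % 2 = i' % 2) ∨
    (∃ i j i' j' : ℕ, e = Edge.horiz i j ∧ e' = Edge.horiz i' j' ∧ j % 2 = j' % 2) := by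
  obtain ⟨⟨p, hp, q, hq, p', hp', q', hq', hne, hpp, hqq⟩, -⟩ := h
  have hpp0 : tri (p 0) = tri (p' 0) := by
    have := congrArg (fun x : Pt => x 0) hpp
    simpa [ff] using this
  have hpp1 : tri (p 1) = tri (p' 1) := by
    have := congrArg (fun x : Pt => x 1) hpp
    simpa [ff] using this
  have hqq0 : tri (q 0) = tri (q' 0) := by
    have := congrArg (fun x : Pt => x 0) hqq
    simpa [ff] using this
  have hqq1 : tri (q 1) = tri (q' 1) := by
    have := congrArg (fun x : Pt => x 1) hqq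
    simpa [ff] using this
  have hneq : ff p ≠ ff q := by
    intro h
    apply hne
    rw [← dist_eq_zero, ← ff_isom e.a p q hp.1 hq.1, h, dist_self]
  cases e with
  | vert i j =>
    cases e' with
    | vert i' j' =>
      left
      refine ⟨i, j, i', j', rfl, rfl, ?_⟩
      rw [seg_vert_coord hp, seg_vert_coord hp', tri_right, tri_right] at hpp0
      rcases Nat.mod_two_eq_zero_or_one i with h1 | h1 <;>
        rcases Nat.mod_two_eq_zero_or_one i' with h2 | h2 <;> simp [h1, h2] at hpp0 ⊢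
    | horiz i' j' =>
      exfalso
      apply hneq
      unfold ff
      rw [hpp1, hqq1, seg_vert_coord hp, seg_vert_coord hq, seg_horiz_coord hp',
        seg_horiz_coord hq']
  | horiz i j =>
    cases e' with
    | vert i' j' =>
      exfalso
      apply hneq
      unfold ff
      rw [hpp0, hqq0, seg_horiz_coord hp, seg_horiz_coord hq, seg_vert_coord hp',
        seg_vert_coord hq']
    | horiz i' j' =>
      right
      refine ⟨i, j, i', j', rfl, rfl, ?_⟩
      rw [seg_horiz_coord hp, seg_horiz_coord hp', tri_right, tri_right] at hpp1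
      rcases Nat.mod_two_eq_zero_or_one j with h1 | h1 <;>
        rcases Nat.mod_two_eq_zero_or_one j' with h2 | h2 <;> simp [h1, h2] at hpp1 ⊢

theorem meet_cr {e e' : Edge} (h : Meet ff e e') :
    ∃ x y : Cr, e = edge x ∧ e' = edge y ∧ x.page = y.page := by
  rcases meet_page h with ⟨i, j, i', j', rfl, rfl, hp⟩ | ⟨i, j, i', j', rfl, rfl, hp⟩
  · exact ⟨⟨false, i, j⟩, ⟨false, i', j'⟩, rfl, rfl, by simp [Cr.page, hp]⟩
  · exact ⟨⟨true, i, j⟩, ⟨true, i', j'⟩, rfl, rfl, by simp [Cr.page, hp]⟩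

theorem dir_edge (I : Inst) (e : Edge) (he : e ∈ I.edges) :
    ∃ x : Cr, e = edge x ∧ x.In (rect I.n I.m) ∧
      (FrontUp ff e.a ↔ ¬ FrontUp ff e.b) ∧
      (I.pat.dir x = true ↔ (I.label e = MV.V ↔ FrontUp ff e.a)) := by
  cases e with
  | vert i j =>
    refine ⟨⟨false, i, j⟩, rfl, he, ?_, ?_⟩
    · rw [ff_front, ff_front]
      simp only [Edge.a, Edge.b]
      omega
    · rw [ff_front]
      simp only [Pat.dir, Inst.pat, Edge.a, Bool.false_eq_true, if_false, decide_eq_true_eq]
  | horiz i j =>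
    refine ⟨⟨true, i, j⟩, rfl, he, ?_, ?_⟩
    · rw [ff_front, ff_front]
      simp only [Edge.a, Edge.b]
      omega
    · rw [ff_front]
      simp only [Pat.dir, Inst.pat, Edge.a, if_true, decide_eq_true_eq]

theorem flat_of_foldable (I : Inst) (h : Foldable I.pat I.n I.m) : I.FlatFoldable := by
  obtain ⟨pos, hpos⟩ := h
  refine ⟨ff, fun s t => pos s < pos t, ?_⟩
  have hdir : ∀ e ∈ I.edges,
      (FrontUp ff e.a ↔ ¬ FrontUp ff e.b) ∧
      ((I.label e = MV.V ↔ FrontUp ff e.a) → pos e.a < pos e.b) ∧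
      (¬ (I.label e = MV.V ↔ FrontUp ff e.a) → pos e.b < pos e.a) := by
    intro e he
    obtain ⟨x, rfl, hx, h1, h2⟩ := dir_edge I e he
    refine ⟨h1, fun h3 => ?_, fun h3 => ?_⟩
    · have h4 := hpos.dir x hx
      have h5 := h2.2 h3
      unfold Pat.lo Pat.hi at h4
      rw [h5] at h4
      rw [edge_a, edge_b]
      exact h4
    · have h4 := hpos.dir x hx
      have h5 : I.pat.dir x = false := by
        cases hd : I.pat.dir x
        · rfl
        · exact absurd (h2.1 hd) h3
      unfold Pat.lo Pat.hi at h4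
      rw [h5] at h4
      rw [edge_a, edge_b]
      exact h4
  constructor
  · intro s _ p hp q hq
    exact ff_isom s p q hp hq
  · intro e _ p hp
    exact ff_refl e p hp
  · intro s hs t ht hne _
    rcases lt_trichotomy (pos s) (pos t) with h1 | h1 | h1
    · exact Or.inl h1
    · exact absurd (hpos.inj s hs t ht h1) hne
    · exact Or.inr h1
  · intro s _ t _ _ h1
    exact lt_asymm h1
  · intro r _ s _ t _ _ h1 h2
    exact lt_trans h1 h2
  · intro e he hl
    obtain ⟨h1, h2, h3⟩ := hdir e he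
    refine ⟨fun hF => h2 ⟨fun _ => hF, fun _ => hl⟩, fun hF => h3 ?_⟩
    intro hiff
    exact (h1.1 (hiff.1 hl)) hF
  · intro e he hl
    obtain ⟨h1, h2, h3⟩ := hdir e he
    have hV : I.label e ≠ MV.V := by
      rw [hl]
      exact fun h => by cases h
    refine ⟨fun hF => h3 ?_, fun hF => h2 ⟨fun h => absurd h hV, fun h => absurd hF (h1.1 h)⟩⟩
    intro hiff
    exact hV (hiff.2 hF)
  · intro e _ c _ hex
    obtain ⟨p, hp, q, hq, hpq⟩ := hex
    exact absurd hpq (no_tortilla e c p hp q hq)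
  · intro e he e' he' _ hmeet u v u' v' huv huv' hcross
    obtain ⟨x, y, rfl, rfl, hp⟩ := meet_cr hmeet
    have hx := (edge_mem I x).1 he
    have hy := (edge_mem I y).1 he'
    obtain ⟨h1, h2, h3⟩ := hcross
    have dx := hpos.dir x hx
    have dy := hpos.dir y hy
    have key : ∀ (z : Cr) (a b : Sq), (a = (edge z).a ∧ b = (edge z).b) ∨
        (a = (edge z).b ∧ b = (edge z).a) → pos (I.pat.lo z) < pos (I.pat.hi z) → pos a < pos b →
        a = I.pat.lo z ∧ b = I.pat.hi z := by
      intro z a b hab hz hlt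
      rcases lohi I.pat z with ⟨ha, hb⟩ | ⟨ha, hb⟩
      · rcases hab with ⟨rfl, rfl⟩ | ⟨rfl, rfl⟩
        · exact ⟨ha.symm, hb.symm⟩
        · rw [ha, hb] at hz
          exact absurd hz (lt_asymm hlt)
      · rcases hab with ⟨rfl, rfl⟩ | ⟨rfl, rfl⟩
        · rw [ha, hb] at hz
          exact absurd hz (lt_asymm hlt)
        · exact ⟨ha.symm, hb.symm⟩
    obtain ⟨rfl, rfl⟩ := key x u v huv dx (lt_trans h1 h2)
    obtain ⟨rfl, rfl⟩ := key y u' v' huv' dy (lt_trans h2 h3)
    exact hpos.nc x y hx hy hp ⟨h1, h2, h3⟩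

end Pool.Agent.Helper81.MFD
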