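import Mathlib

/-!
Assigned flat-foldability of rectangular grid crease patterns: definitions.

The paper is the rectangle `[0, n] × [0, m]` of the Euclidean plane, divided into the `m n` unit
squares `(i, j)` (`i < n`, `j < m`), the square `(i, j)` being `[i, i + 1] × [j, j + 1]`. All unit
segments between two squares are crease edges.
-/

set_option autoImplicit false

namespace Pool.Agent.Helper81.MFD

open Computability

/-- The Euclidean plane. -/
abbrev Pt : Type := EuclideanSpace ℝ (Fin 2)

/-- The point with coordinates `x`, `y`. -/
noncomputable def pt (x y : ℝ) : Pt := !₂[x, y]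

/-- Squares are named by their lower left corner. -/
abbrev Sq : Type := ℕ × ℕ

/-- The (closed) unit square `s`. -/
def square (s : Sq) : Set Pt :=
  {p | (s.1 : ℝ) ≤ p 0 ∧ p 0 ≤ s.1 + 1 ∧ (s.2 : ℝ) ≤ p 1 ∧ p 1 ≤ s.2 + 1}

/-- The open unit square `s`. -/
def openSquare (s : Sq) : Set Pt :=
  {p | (s.1 : ℝ) < p 0 ∧ p 0 < s.1 + 1 ∧ (s.2 : ℝ) < p 1 ∧ p 1 < s.2 + 1}

/-- Mountain or valley. -/
inductive MV : Type
  | M
  | V
deriving DecidableEq

/-- Unit segments between two neighbouring squares. `vert i j` is the segment between the squares
`(i, j)` and `(i + 1, j)` (on the line `x = i + 1`), `horiz i j` the segment between `(i, j)` and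
`(i, j + 1)` (on the line `y = j + 1`). -/
inductive Edge : Type
  | vert (i j : ℕ)
  | horiz (i j : ℕ)
deriving DecidableEq

namespace Edge

/-- The left (lower) one of the two squares at a crease edge. -/
def a : Edge → Sq
  | vert i j => (i, j)
  | horiz i j => (i, j)

/-- The right (upper) one of the two squares at a crease edge. -/
def b : Edge → Sq
  | vert i j => (i + 1, j)
  | horiz i j => (i, j + 1)

/-- The crease edge as a segment of the plane. -/
def seg (e : Edge) : Set Pt := square e.a ∩ square e.b

/-- The reflection of the plane in the line which contains the crease edge. -/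
noncomputable def refl : Edge → Pt → Pt
  | vert i _, p => pt (2 * (i + 1) - p 0) (p 1)
  | horiz _ j, p => pt (p 0) (2 * (j + 1) - p 1)

end Edge

/-- An instance: the grid crease pattern `G_{m,n}` with a mountain-valley assignment `label` of its
crease edges (only the values at the crease edges inside the paper matter). -/
structure Inst where
  m : ℕ
  n : ℕ
  m_pos : 0 < m
  n_pos : 0 < n
  label : Edge → MV

namespace Inst

variable (I : Inst)

/-- The squares of the paper `[0, n] × [0, m]`. -/
def squares : Set Sq := {s | s.1 < I.n ∧ s.2 < I.m}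

/-- The crease edges of the paper. -/
def edges : Set Edge := {e | e.a ∈ I.squares ∧ e.b ∈ I.squares}

end Inst

/-- The images of the (open) squares `s` and `t` under `f` overlap. -/
def Overlap (f : Pt → Pt) (s t : Sq) : Prop :=
  ∃ p ∈ openSquare s, ∃ q ∈ openSquare t, f p = f q

/-- The images of the (open) squares `r`, `s` and `t` under `f` have a common point. -/
def Overlap₃ (f : Pt → Pt) (r s t : Sq) : Prop :=
  ∃ o ∈ openSquare r, ∃ p ∈ openSquare s, ∃ q ∈ openSquare t, f o = f p ∧ f p = f q

/-- `f` preserves the orientation of the square `s`: the front side of `s` faces up in the folded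
state. -/
def FrontUp (f : Pt → Pt) (s : Sq) : Prop :=
  0 < (f (pt (s.1 + 1) s.2) 0 - f (pt s.1 s.2) 0) * (f (pt s.1 (s.2 + 1)) 1 - f (pt s.1 s.2) 1)
    - (f (pt (s.1 + 1) s.2) 1 - f (pt s.1 s.2) 1) * (f (pt s.1 (s.2 + 1)) 0 - f (pt s.1 s.2) 0)

/-- The crease edges `e` and `e'` have images which overlap in more than one point, and their
squares lie on the same side of the common image. -/
def Meet (f : Pt → Pt) (e e' : Edge) : Prop :=
  (∃ p ∈ e.seg, ∃ q ∈ e.seg, ∃ p' ∈ e'.seg, ∃ q' ∈ e'.seg, p ≠ q ∧ f p = f p' ∧ f q = f q') ∧
    Overlap f e.a e'.a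

/-- Flat foldings of an instance: a map `f` from the paper to the plane and a layer ordering
`below` of the overlapping squares. -/
structure IsFlatFolding (I : Inst) (f : Pt → Pt) (below : Sq → Sq → Prop) : Prop where
  /-- `f` is an isometry on every unit square. -/
  isom : ∀ s ∈ I.squares, ∀ p ∈ square s, ∀ q ∈ square s, dist (f p) (f q) = dist p q
  /-- `f` reflects across every crease edge. -/
  reflect : ∀ e ∈ I.edges, ∀ p ∈ square e.a, f (e.refl p) = f p
  /-- Two overlapping squares are ordered. -/
  total : ∀ s ∈ I.squares, ∀ t ∈ I.squares, s ≠ t → Overlap f s t → below s t ∨ below t s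
  /-- The order is antisymmetric. -/
  asymm : ∀ s ∈ I.squares, ∀ t ∈ I.squares, Overlap f s t → below s t → ¬ below t s
  /-- The order is transitive at every point. -/
  trans : ∀ r ∈ I.squares, ∀ s ∈ I.squares, ∀ t ∈ I.squares, Overlap₃ f r s t →
    below r s → below s t → below r t
  /-- At a valley the front sides of the two squares touch: the square whose front side faces up
  is below the other one. -/
  valley : ∀ e ∈ I.edges, I.label e = MV.V →
    (FrontUp f e.a → below e.a e.b) ∧ (FrontUp f e.b → below e.b e.a)
  /-- At a mountain the back sides of the two squares touch: the square whose front side faces up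
  is above the other one. -/
  mountain : ∀ e ∈ I.edges, I.label e = MV.M →
    (FrontUp f e.a → below e.b e.a) ∧ (FrontUp f e.b → below e.a e.b)
  /-- No self-intersection: a square which covers a part of a crease edge in the folded state does
  not lie between the two squares of the crease edge. -/
  tortilla : ∀ e ∈ I.edges, ∀ c ∈ I.squares, (∃ p ∈ e.seg, ∃ q ∈ openSquare c, f p = f q) →
    ¬ (below e.a c ∧ below c e.b) ∧ ¬ (below e.b c ∧ below c e.a)
  /-- No self-intersection: two crease edges which lie on each other in the folded state do not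
  cross: of the two squares of the crease edge `e'`, either both or none lie between the two
  squares of the crease edge `e`. -/
  taco : ∀ e ∈ I.edges, ∀ e' ∈ I.edges, e ≠ e' → Meet f e e' →
    ∀ u v u' v' : Sq, ((u = e.a ∧ v = e.b) ∨ (u = e.b ∧ v = e.a)) →
      ((u' = e'.a ∧ v' = e'.b) ∨ (u' = e'.b ∧ v' = e'.a)) →
      ¬ (below u u' ∧ below u' v ∧ below v v')

/-- The instance is flat-foldable. -/
def Inst.FlatFoldable (I : Inst) : Prop :=
  ∃ (f : Pt → Pt) (below : Sq → Sq → Prop), IsFlatFolding I f below

/-! ### Encoding of the instances -/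

/-- The bit of a label. -/
def MV.bit : MV → Bool
  | M => true
  | V => false

/-- Encoding of an instance, of length `m + n + 2 + m (n - 1) + (m - 1) n`: `m` and `n` in unary,
the labels of the crease edges on vertical lines row by row, the labels of the crease edges on
horizontal lines row by row. -/
def encodeInst (I : Inst) : List Γ' :=
  List.replicate I.m (Γ'.bit true) ++ (Γ'.comma :: List.replicate I.n (Γ'.bit true)) ++
    (Γ'.comma :: (List.range I.m).flatMap
      (fun j => (List.range (I.n - 1)).map (fun i => Γ'.bit (I.label (Edge.vert i j)).bit))) ++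
    (List.range (I.m - 1)).flatMap
      (fun j => (List.range I.n).map (fun i => Γ'.bit (I.label (Edge.horiz i j)).bit))

end Pool.Agent.Helper81.MFD
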